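import Pool.Agent.U815.CB.D

/-!
# MP_eb8260_an: the contraction C₀-semigroups form a Baire space

With the metric `d` of weak convergence, uniform on compact time intervals, the space of all
contraction `C₀`-semigroups on a separable infinite-dimensional Hilbert space is a Baire space.  It
is even completely metrizable, hence Polish: it is a `G_δ` subset of the complete separable metric
space of all weakly continuous families of contractions.
-/

set_option autoImplicit false

open scoped NNReal

namespace Pool.Agent.Results.MP_eb8260_an.ContractionBaire

open Pool.Agent.U815.CB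

theorem denseRange_of_punctured {H : Type*} [NormedAddCommGroup H] [InnerProductSpace ℂ H]
    (hinf : ¬ FiniteDimensional ℂ H) (x : ℕ → {y : H // y ≠ 0}) (hx : DenseRange x) :
    DenseRange fun j => (x j : H) := by
  haveI : Nontrivial H := by
    by_contra h
    rw [not_nontrivial_iff_subsingleton] at h
    exact hinf inferInstance
  haveI : (nhdsWithin (0 : H) {0}ᶜ).NeBot := Module.punctured_nhds_neBot ℂ H 0
  have h1 : DenseRange ((↑) : {y : H // y ≠ 0} → H) := by
    have := dense_compl_singleton (0 : H)
    rw [DenseRange, Subtype.range_coe_subtype]
    exact this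
  exact h1.comp hx continuous_subtype_val

/-- **The space `(C^cont, d)` is Polish, in particular a Baire space.** -/
theorem result (H : Type*) [NormedAddCommGroup H] [InnerProductSpace ℂ H] [CompleteSpace H]
    [TopologicalSpace.SeparableSpace H] (hinf : ¬ FiniteDimensional ℂ H)
    (x : ℕ → {y : H // y ≠ 0}) (hx : DenseRange x) :
    ∃ _ : MetricSpace (Sg H),
      (∀ T S : Sg H, dist T S = dd (fun j => (x j : H)) T.op S.op) ∧
        PolishSpace (Sg H) ∧ BaireSpace (Sg H) := by
  have h0 : ∀ j, (x j : H) ≠ 0 := fun j => (x j).2
  have hd := denseRange_of_punctured hinf x hx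
  letI := sgMetr h0 hd
  have hP : PolishSpace (Sg H) := polish h0 hd
  exact ⟨inferInstance, fun _ _ => rfl, hP, inferInstance⟩

end Pool.Agent.Results.MP_eb8260_an.ContractionBaire
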